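import Mathlib
import Pool.Agent.X297.LO.Stm

set_option autoImplicit false

namespace Pool.Agent.X101.LOL

open Pool.Agent.X297.LO

lemma card_fiber {I Z : Type} [Fintype I] [Fintype Z] (P : I → Z → Prop) :
    Nat.card {p : I × Z // P p.1 p.2} = ∑ i, Nat.card {z // P i z} := by
  rw [← Nat.card_sigma]
  apply Nat.card_congr
  exact
    { toFun := fun p => ⟨p.1.1, ⟨p.1.2, p.2⟩⟩
      invFun := fun q => ⟨(q.1, q.2.1), q.2.2⟩
      left_inv := fun _ => rfl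
      right_inv := fun _ => rfl }

lemma card_sum_ite {I : Type} [Fintype I] (P : I → Prop) [DecidablePred P] :
    Nat.card {i // P i} = ∑ i, if P i then 1 else 0 := by
  rw [Nat.card_eq_fintype_card, Fintype.card_subtype, Finset.card_filter]

lemma cnt_eq (m l : ℕ) (s : Fin m → ℤ) (N : ℕ) (a b c k : ℤ) :
    cnt (fun p : Fin m × Fin (2 * l) => s p.1 + N * ((p.2 : ℕ) : ℤ)) a b c k =
      ∑ i : Fin m × Fin m × Fin m, Nat.card {z : Fin (2*l) × Fin (2*l) × Fin (2*l) //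
        a * (s i.1 + N * ((z.1 : ℕ) : ℤ)) + b * (s i.2.1 + N * ((z.2.1 : ℕ) : ℤ)) +
          c * (s i.2.2 + N * ((z.2.2 : ℕ) : ℤ)) = k} := by
  rw [← card_fiber (fun (i : Fin m × Fin m × Fin m) (z : Fin (2*l) × Fin (2*l) × Fin (2*l)) =>
    a * (s i.1 + N * ((z.1 : ℕ) : ℤ)) + b * (s i.2.1 + N * ((z.2.1 : ℕ) : ℤ)) +
          c * (s i.2.2 + N * ((z.2.2 : ℕ) : ℤ)) = k)]
  unfold cnt
  apply Nat.card_congr
  exact
    { toFun := fun p => ⟨((p.1.1.1, p.1.2.1.1, p.1.2.2.1), (p.1.1.2, p.1.2.1.2, p.1.2.2.2)),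
        by simpa [smul_eq_mul] using p.2⟩
      invFun := fun q => ⟨((q.1.1.1, q.1.2.1), (q.1.1.2.1, q.1.2.2.1), (q.1.1.2.2, q.1.2.2.2)),
        by simpa [smul_eq_mul] using q.2⟩
      left_inv := fun _ => rfl
      right_inv := fun _ => rfl }

theorem t_LIFT : S_LIFT := by
  classical
  intro hup hlo N A M hN hAM ⟨m, s, hM, x, hA⟩
  have hNz : (0:ℤ) < N := by exact_mod_cast hN
  -- bound for the error terms
  obtain ⟨E, hE⟩ : ∃ E : ℕ, ∀ i : Fin m × Fin m × Fin m,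
      |(x - (s i.1 - s i.2.1 + 2 * s i.2.2)) / N| ≤ (E : ℤ) := by
    refine ⟨∑ i : Fin m × Fin m × Fin m,
      ((x - (s i.1 - s i.2.1 + 2 * s i.2.2)) / (N : ℤ)).natAbs, fun i => ?_⟩
    rw [← Int.natCast_natAbs]
    exact_mod_cast Finset.single_le_sum
      (f := fun i : Fin m × Fin m × Fin m => ((x - (s i.1 - s i.2.1 + 2 * s i.2.2)) / (N : ℤ)).natAbs)
      (fun _ _ => Nat.zero_le _) (Finset.mem_univ i)
  have hA1 : 1 ≤ A := by omega
  have hne : Nonempty (Fin m) := by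
    by_contra hcon
    rw [not_nonempty_iff] at hcon
    have : Nat.card {p : Fin m × Fin m × Fin m //
        (N : ℤ) ∣ s p.1 - s p.2.1 + 2 * s p.2.2 - x} = 0 := Nat.card_of_isEmpty
    omega
  set l : ℕ := 4 * A * (E + 2) + 1 with hl
  have hl0 : 0 < 2 * l := by omega
  haveI : Nonempty (Fin (2 * l)) := ⟨⟨0, hl0⟩⟩
  refine ⟨Fin m × Fin (2 * l), inferInstance, inferInstance,
    fun p => s p.1 + N * ((p.2 : ℕ) : ℤ), x + N * (2 * l), ?_⟩
  intro k
  -- upper bound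
  have hU : cnt (fun p : Fin m × Fin (2 * l) => s p.1 + N * ((p.2 : ℕ) : ℤ)) 1 (-1) 1 k ≤
      3 * l ^ 2 * M := by
    rw [cnt_eq]
    have h1 : ∀ i : Fin m × Fin m × Fin m, Nat.card {z : Fin (2*l) × Fin (2*l) × Fin (2*l) //
        1 * (s i.1 + N * ((z.1 : ℕ) : ℤ)) + (-1) * (s i.2.1 + N * ((z.2.1 : ℕ) : ℤ)) +
          1 * (s i.2.2 + N * ((z.2.2 : ℕ) : ℤ)) = k} ≤
        3 * l ^ 2 * (if (N : ℤ) ∣ s i.1 - s i.2.1 + s i.2.2 - k then 1 else 0) := by
      intro i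
      split_ifs with hd
      · obtain ⟨c, hc⟩ := hd
        rw [mul_one]
        refine le_trans (le_of_eq (Nat.card_congr (Equiv.subtypeEquivRight ?_))) (hup l (-c))
        intro z
        constructor
        · intro h
          have : (N:ℤ) * (((z.1 : ℕ) : ℤ) - ((z.2.1 : ℕ) : ℤ) + ((z.2.2 : ℕ) : ℤ)) = N * (-c) := by
            linarith
          exact mul_left_cancel₀ hNz.ne' this
        · intro h
          have h2 : (N:ℤ) * (((z.1 : ℕ) : ℤ) - ((z.2.1 : ℕ) : ℤ) + ((z.2.2 : ℕ) : ℤ)) = N * (-c) := by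
            rw [h]
          linarith
      · rw [mul_zero]
        have : IsEmpty {z : Fin (2*l) × Fin (2*l) × Fin (2*l) //
          1 * (s i.1 + N * ((z.1 : ℕ) : ℤ)) + (-1) * (s i.2.1 + N * ((z.2.1 : ℕ) : ℤ)) +
          1 * (s i.2.2 + N * ((z.2.2 : ℕ) : ℤ)) = k} := by
          refine ⟨fun z => hd ?_⟩
          have hz := z.2
          exact ⟨-(((z.1.1 : ℕ) : ℤ) - ((z.1.2.1 : ℕ) : ℤ) + ((z.1.2.2 : ℕ) : ℤ)), by linarith⟩
        rw [Nat.card_of_isEmpty]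
    refine (Finset.sum_le_sum fun i _ => h1 i).trans ?_
    rw [← Finset.mul_sum, ← card_sum_ite]
    exact Nat.mul_le_mul_left _ (hM k)
  -- lower bound
  have hL : (A : ℤ) * (2 * (l : ℤ) ^ 2 - 4 * l * (E + 2)) ≤
      (cnt (fun p : Fin m × Fin (2 * l) => s p.1 + N * ((p.2 : ℕ) : ℤ)) 1 (-1) 2
        (x + N * (2 * l)) : ℤ) := by
    rw [cnt_eq]
    have hB : (0:ℤ) ≤ 2 * (l : ℤ) ^ 2 - 4 * l * (E + 2) := by
      have h3 : (2 * ((E : ℤ) + 2)) ≤ l := by
        rw [hl]; push_cast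
        have : (1:ℤ) ≤ A := by exact_mod_cast hA1
        nlinarith [this, (by positivity : (0:ℤ) ≤ E)]
      nlinarith [(by positivity : (0:ℤ) ≤ (l:ℤ))]
    have h1 : ∀ i : Fin m × Fin m × Fin m,
        (if (N : ℤ) ∣ s i.1 - s i.2.1 + 2 * s i.2.2 - x then (1:ℤ) else 0) *
          (2 * (l : ℤ) ^ 2 - 4 * l * (E + 2)) ≤
        (Nat.card {z : Fin (2*l) × Fin (2*l) × Fin (2*l) //
        1 * (s i.1 + N * ((z.1 : ℕ) : ℤ)) + (-1) * (s i.2.1 + N * ((z.2.1 : ℕ) : ℤ)) +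
          2 * (s i.2.2 + N * ((z.2.2 : ℕ) : ℤ)) = x + N * (2 * l)} : ℤ) := by
      intro i
      split_ifs with hd
      · obtain ⟨c, hc⟩ := hd
        rw [one_mul]
        have hdiv : (x - (s i.1 - s i.2.1 + 2 * s i.2.2)) / (N : ℤ) = -c := by
          have : x - (s i.1 - s i.2.1 + 2 * s i.2.2) = N * (-c) := by linarith
          rw [this, Int.mul_ediv_cancel_left _ hNz.ne']
        have hEc : |(-c)| ≤ (E:ℤ) := by rw [← hdiv]; exact hE i
        refine le_trans (hlo l E (-c) hEc) (le_of_eq ?_)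
        congr 1
        refine Nat.card_congr (Equiv.subtypeEquivRight ?_)
        intro z
        constructor
        · intro h
          have h2 : (N:ℤ) * (((z.1 : ℕ) : ℤ) - ((z.2.1 : ℕ) : ℤ) + 2 * ((z.2.2 : ℕ) : ℤ)) =
            N * (2 * l + (-c)) := by rw [h]
          linarith
        · intro h
          have : (N:ℤ) * (((z.1 : ℕ) : ℤ) - ((z.2.1 : ℕ) : ℤ) + 2 * ((z.2.2 : ℕ) : ℤ)) =
            N * (2 * l + (-c)) := by linarith
          exact mul_left_cancel₀ hNz.ne' this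
      · rw [zero_mul]; positivity
    push_cast
    refine le_trans ?_ (Finset.sum_le_sum fun i _ => h1 i)
    rw [← Finset.sum_mul]
    apply mul_le_mul_of_nonneg_right _ hB
    have h4 := card_sum_ite (fun i : Fin m × Fin m × Fin m =>
      (N : ℤ) ∣ s i.1 - s i.2.1 + 2 * s i.2.2 - x)
    rw [h4] at hA
    exact_mod_cast hA
  have hfin : (3 * (l:ℤ) ^ 2 * M) < (A : ℤ) * (2 * (l : ℤ) ^ 2 - 4 * l * (E + 2)) := by
    have h5 : (3 * (M:ℤ)) + 1 ≤ 2 * A := by exact_mod_cast hAM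
    have h6 : (l:ℤ) = 4 * A * (E + 2) + 1 := by rw [hl]; push_cast; ring
    have h7 : (0:ℤ) < l := by rw [h6]; positivity
    have h8 : (l:ℤ) * l > (4 * A * (E+2)) * l := by
      apply mul_lt_mul_of_pos_right _ h7
      rw [h6]; linarith
    nlinarith [mul_pos h7 h7, mul_le_mul_of_nonneg_right h5 (mul_pos h7 h7).le]
  have hUz : (cnt (fun p : Fin m × Fin (2 * l) => s p.1 + N * ((p.2 : ℕ) : ℤ)) 1 (-1) 1 k : ℤ) ≤
      3 * (l:ℤ) ^ 2 * M := by exact_mod_cast hU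
  have := lt_of_le_of_lt hUz (lt_of_lt_of_le hfin hL)
  exact_mod_cast this

end Pool.Agent.X101.LOL
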